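import Pool.Agent.Work.MP_95e4ab_al.Twin

set_option autoImplicit false

namespace Pool.Agent.Results.MP_95e4ab_al.ClosedLocusBound

universe u

open CategoryTheory Pool.Agent.Work.MP_95e4ab_al.Spectrum

/-- Let `R` be a ring that is left artinian and right artinian. If the points of finite projective
dimension form a closed subset of the Ziegler spectrum of right `R`-modules, then the right
finitistic dimension of `R` is finite: the projective dimensions of all right `R`-modules of
finite projective dimension are bounded by one natural number. (Right `R`-modules are the modules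
over `Rᵐᵒᵖ`, and `IsArtinianRing Rᵐᵒᵖ` says that `R` is right artinian.) -/
theorem result (R : Type u) [Ring R] [IsArtinianRing R] [IsArtinianRing Rᵐᵒᵖ]
    (h : IsClosed (finiteProjDim Rᵐᵒᵖ)) :
    ∃ n : ℕ, ∀ M : ModuleCat.{u} Rᵐᵒᵖ, projectiveDimension M ≠ ⊤ → projectiveDimension M ≤ n :=
  main_left Rᵐᵒᵖ inferInstance (RingEquiv.isArtinianRing (RingEquiv.opOp R)) h

end Pool.Agent.Results.MP_95e4ab_al.ClosedLocusBound
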